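import Pool.Agent.H73.MG.Main

set_option autoImplicit false

namespace Pool.Agent.H73.MG

open Cardinal Set Filter Ordinal

universe u v

section

variable {k : Cardinal.{u}} {L : Type u} {U : Ultrafilter (Set L)}

/-- countable subsets are decided: if almost every `x` contains the range of a sequence with `P`,
some fixed sequence works almost everywhere. -/
theorem pickSeq (hk : ℵ₀ < k) (hU : IsNormalMeasure k L U) {P : Set L → (ℕ → L) → Prop}
    (h : ∀ᶠ x in (U : Filter (Set L)), ∃ s : ℕ → L, (∀ n, s n ∈ x) ∧ P x s) :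
    ∃ t : ℕ → L, ∀ᶠ x in (U : Filter (Set L)), P x t := by
  obtain ⟨x0, s0, -, -⟩ := h.exists
  have h4 : ∀ x : Set L, ∃ s : ℕ → L, (∃ s : ℕ → L, (∀ n, s n ∈ x) ∧ P x s) →
      (∀ n, s n ∈ x) ∧ P x s := by
    intro x
    by_cases hx : ∃ s : ℕ → L, (∀ n, s n ∈ x) ∧ P x s
    · obtain ⟨s, hs⟩ := hx
      exact ⟨s, fun _ => hs⟩
    · exact ⟨s0, fun h => absurd h hx⟩
  choose s hs using h4
  have h5 : ∀ n, ∃ i, ∀ᶠ x in (U : Filter (Set L)), s x n = i := by
    intro n
    apply hU.normal (fun x => s x n)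
    filter_upwards [h] with x hx using (hs x hx).1 n
  choose t ht using h5
  refine ⟨t, ?_⟩
  filter_upwards [ctble hk hU ht, h] with x hx1 hx2
  have h7 := (hs x hx2).2
  rwa [show s x = t from funext hx1] at h7

theorem bd_conv [LinearOrder L] (hk : ℵ₀ < k) (hU : IsNormalMeasure k L U)
    (h : ∀ᶠ x : Set L in (U : Filter (Set L)), BdArrow (x : Type u)) : BdArrow L := by
  classical
  intro f
  -- closure under f on bounded countable sets
  have h1 : ∀ᶠ x : Set L in (U : Filter (Set L)), ∀ s : ℕ → L, (∀ n, s n ∈ x) →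
      f (range s) ∈ x := by
    by_contra hc
    rw [← Ultrafilter.eventually_not] at hc
    have h2 : ∀ᶠ x : Set L in (U : Filter (Set L)), ∃ s : ℕ → L, (∀ n, s n ∈ x) ∧
        f (range s) ∉ x := by
      filter_upwards [hc] with x hx
      push Not at hx
      exact hx
    obtain ⟨t, ht⟩ := pickSeq hk hU h2
    obtain ⟨x, hx1, hx2⟩ := (ht.and (fine hU (f (range t)))).exists
    exact hx1 hx2
  -- the sets A_x
  have h2 : ∀ᶠ x : Set L in (U : Filter (Set L)), ∃ c ∈ x, ∃ e : L → L,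
      (∀ z ∈ x, e z ∈ x) ∧ InjOn e x ∧ ∀ s : ℕ → L, (∀ n, s n ∈ e '' x) → (range s).Infinite →
        (∃ b ∈ x, ∀ n, s n ≤ b) → f (range s) ≠ c := by
    filter_upwards [h, h1, fine hU (f ∅)] with x hx hx1 hx0
    · obtain ⟨A, hA, c, hc⟩ := hx fun y => if hy : f (Subtype.val '' y) ∈ x then
        ⟨f (Subtype.val '' y), hy⟩ else ⟨f ∅, hx0⟩
      obtain ⟨e⟩ := Cardinal.eq.1 hA
      refine ⟨c.1, c.2, fun z => if hz : z ∈ x then (e.symm ⟨z, hz⟩).1.1 else z, ?_, ?_, ?_⟩
      · intro z hz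
        simp only [hz, dif_pos]
        exact (e.symm ⟨z, hz⟩).1.2
      · intro z hz z' hz' hzz
        simp only [hz, hz', dif_pos] at hzz
        have := e.symm.injective (Subtype.ext (Subtype.ext hzz))
        exact congrArg (fun w : x => w.1) this
      · intro s hs hinf hb hfc
        have hsA : ∀ n, ∃ h : s n ∈ x, (⟨s n, h⟩ : x) ∈ A := by
          intro n
          obtain ⟨z, hz, hzn⟩ := hs n
          simp only [hz, dif_pos] at hzn
          have h5 : s n ∈ x := by rw [← hzn]; exact (e.symm ⟨z, hz⟩).1.2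
          refine ⟨h5, ?_⟩
          have h6 : (⟨s n, h5⟩ : x) = (e.symm ⟨z, hz⟩).1 := Subtype.ext hzn.symm
          rw [h6]
          exact (e.symm ⟨z, hz⟩).2
        choose hsx hsA using hsA
        have hr : Subtype.val '' (range fun n => (⟨s n, hsx n⟩ : x)) = range s := by
          rw [← range_comp]; rfl
        apply hc (range fun n => (⟨s n, hsx n⟩ : x))
        · rintro _ ⟨n, rfl⟩
          exact hsA n
        · exact countable_range _
        · intro hfin
          apply hinf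
          rw [← hr]
          exact hfin.image _
        · obtain ⟨b, hbx, hb⟩ := hb
          exact ⟨⟨b, hbx⟩, by rintro _ ⟨n, rfl⟩; exact hb n⟩
        · have h7 : f (Subtype.val '' (range fun n => (⟨s n, hsx n⟩ : x))) ∈ x := by
            rw [hr]; exact hx1 s hsx
          rw [dif_pos h7]
          apply Subtype.ext
          change f (Subtype.val '' (range fun n => (⟨s n, hsx n⟩ : x))) = c.1
          rw [hr, hfc]
  obtain ⟨c, hc⟩ := pick hU h2
  have h3 : ∀ x : Set L, ∃ e : L → L, (∃ e : L → L,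
      (∀ z ∈ x, e z ∈ x) ∧ InjOn e x ∧ ∀ s : ℕ → L, (∀ n, s n ∈ e '' x) → (range s).Infinite →
        (∃ b ∈ x, ∀ n, s n ≤ b) → f (range s) ≠ c) → 
      (∀ z ∈ x, e z ∈ x) ∧ InjOn e x ∧ ∀ s : ℕ → L, (∀ n, s n ∈ e '' x) → (range s).Infinite →
        (∃ b ∈ x, ∀ n, s n ≤ b) → f (range s) ≠ c := by
    intro x
    by_cases hx : ∃ e : L → L,
      (∀ z ∈ x, e z ∈ x) ∧ InjOn e x ∧ ∀ s : ℕ → L, (∀ n, s n ∈ e '' x) → (range s).Infinite →
        (∃ b ∈ x, ∀ n, s n ≤ b) → f (range s) ≠ c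
    · obtain ⟨e, he⟩ := hx
      exact ⟨e, fun _ => he⟩
    · exact ⟨id, fun h => absurd h hx⟩
  choose e he using h3
  have h4 : ∀ a : L, ∃ i : L, ∀ᶠ x in (U : Filter (Set L)), e x a = i := by
    intro a
    apply hU.normal (fun x => e x a)
    filter_upwards [hc, fine hU a] with x hx hxa using (he x hx).1 a hxa
  choose g hg using h4
  have hginj : Function.Injective g := by
    intro a a' haa
    obtain ⟨x, hx1, hx2, hx3, hx4, hx5⟩ :=
      ((hg a).and ((hg a').and (hc.and ((fine hU a).and (fine hU a'))))).exists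
    apply (he x hx3).2.1 hx4 hx5
    rw [hx1, hx2, haa]
  refine ⟨range g, mk_range_eq g hginj, c, ?_⟩
  intro y hy hyc hyi hyb hfy
  obtain ⟨s, rfl⟩ := hyc.exists_eq_range hyi.nonempty
  obtain ⟨b, hb⟩ := hyb
  have h5 : ∀ n, ∃ a, g a = s n := fun n => hy (mem_range_self n)
  choose a ha using h5
  have h6 := ctble hk hU (fun n => (hg (a n)).and (fine hU (a n)))
  obtain ⟨x, hx1, hx2, hx3⟩ := (h6.and (hc.and (fine hU b))).exists
  refine (he x hx2).2.2 s (fun n => ⟨a n, (hx1 n).2, ?_⟩) hyi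
    ⟨b, hx3, fun n => hb (mem_range_self n)⟩ hfy
  rw [(hx1 n).1, ha n]

end

/-- The converse of `measure_one`. -/
theorem conv {k l : Cardinal.{u}} (hk : ℵ₀ < k) (hl : k ≤ l)
    (U : Ultrafilter (Set l.ord.ToType)) (hU : IsNormalMeasure k l.ord.ToType U)
    (h : ∀ᶠ x : Set l.ord.ToType in (U : Filter (Set l.ord.ToType)),
      IsMagidor #(x : Type u)) : IsMagidor l := by
  have hl0 : ℵ₀ < l := hk.trans_le hl
  have e1 : ∀ᶠ x : Set l.ord.ToType in (U : Filter (Set l.ord.ToType)),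
      BdArrow (x : Type u) := by
    filter_upwards [h, ordEq U hU] with x hx hord
    have h8 : typeLT x = typeLT (#x).ord.ToType := by rw [type_toType, hord]
    obtain ⟨e⟩ := type_eq.1 h8
    exact (hx.2.2.congr ToType.mk).congr (OrderIso.ofRelIsoLT e).symm
  have e2 : ∀ᶠ x : Set l.ord.ToType in (U : Filter (Set l.ord.ToType)),
      ∃ s : ℕ → l.ord.ToType, (∀ n, s n ∈ x) ∧ ∀ z ∈ x, ∃ n, z ≤ s n := by
    filter_upwards [h, ordEq U hU] with x hx hord
    have h1 := hx.2.1
    rw [hord, Ordinal.cof_type] at h1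
    obtain ⟨S, hS, hS2⟩ := Order.exists_cof_eq x
    rw [h1] at hS2
    have hSc : S.Countable := by
      rw [← le_aleph0_iff_set_countable, hS2]
    have hSn : S.Nonempty := by
      rw [← nonempty_coe_sort, ← mk_ne_zero_iff, hS2]
      exact aleph0_ne_zero
    obtain ⟨s, hs⟩ := hSc.exists_eq_range hSn
    refine ⟨fun n => (s n).1, fun n => (s n).2, fun z hz => ?_⟩
    obtain ⟨y, hy, hzy⟩ := hS ⟨z, hz⟩
    rw [hs] at hy
    obtain ⟨n, rfl⟩ := hy
    exact ⟨n, hzy⟩
  obtain ⟨t, ht⟩ := pickSeq hk hU e2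
  refine ⟨hl0, ?_, (bd_conv hk hU e1).congr ToType.mk.symm⟩
  apply le_antisymm
  · rw [← Ordinal.cof_toType]
    have hc : IsCofinal (range t) := by
      intro z
      obtain ⟨x, hx1, hx2⟩ := (ht.and (fine hU z)).exists
      obtain ⟨n, hn⟩ := hx1 z hx2
      exact ⟨_, mem_range_self n, hn⟩
    refine (Order.cof_le hc).trans ?_
    rw [le_aleph0_iff_set_countable]
    exact countable_range _
  · rw [Ordinal.aleph0_le_cof_iff, Ordinal.one_lt_cof_iff]
    exact isSuccLimit_ord hl0.le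

end Pool.Agent.H73.MG
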