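import Mathlib

set_option autoImplicit false

namespace Pool.Agent.H73.MG

open Cardinal Set

universe u v

/-- The arrow `X → [X]^(aleph0-bd)_X` for an ordered type `X`: whatever way the countably infinite bounded
subsets of `X` are coloured by the elements of `X`, there is `A ⊆ X` of the cardinality of `X`
and a colour `c` which no countably infinite bounded subset of `A` gets. -/
def BdArrow (X : Type u) [Preorder X] : Prop :=
  ∀ f : Set X → X, ∃ A : Set X, #A = #X ∧ ∃ c : X, ∀ x : Set X, x ⊆ A →
    x.Countable → x.Infinite → BddAbove x → f x ≠ c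

/-- Magidor cardinals (uncountable, of cofinality `aleph0`). -/
def IsMagidor (l : Cardinal.{u}) : Prop :=
  ℵ₀ < l ∧ l.ord.cof = ℵ₀ ∧ BdArrow (Iio l.ord)

/-- `U` is a fine, normal, `k`-complete ultrafilter on `P_k(I)`. -/
structure IsNormalMeasure (k : Cardinal.{u}) (I : Type u) (U : Ultrafilter (Set I)) : Prop where
  small : {x : Set I | #x < k} ∈ U
  fine : ∀ i : I, {x : Set I | i ∈ x} ∈ U
  complete : ∀ (J : Type u) (S : J → Set (Set I)), #J < k → (∀ j, S j ∈ U) → (⋂ j, S j) ∈ U
  normal : ∀ f : Set I → I, {x | f x ∈ x} ∈ U → ∃ i, {x | f x = i} ∈ U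

/-- Supercompact cardinals (Solovay, Reinhardt): `k` is uncountable and every `P_k(I)` with
`k ≤ |I|` carries a fine normal `k`-complete ultrafilter. -/
def IsSupercompact (k : Cardinal.{u}) : Prop :=
  ℵ₀ < k ∧ ∀ I : Type u, k ≤ #I → ∃ U : Ultrafilter (Set I), IsNormalMeasure k I U

end Pool.Agent.H73.MG
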