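import Pool.Agent.H73.MG.Defs

set_option autoImplicit false

namespace Pool.Agent.H73.MG

open Cardinal Set Filter Ordinal

universe u v

theorem BdArrow.congr {X : Type u} {Y : Type v} [Preorder X] [Preorder Y] (e : X ≃o Y)
    (h : BdArrow X) : BdArrow Y := by
  intro f
  obtain ⟨A, hA, c, hc⟩ := h fun x => e.symm (f (e '' x))
  refine ⟨e '' A, ?_, e c, ?_⟩
  · have h1 : lift.{u} #(e '' A) = lift.{v} #A := mk_image_eq_lift e A e.injective
    have h2 : lift.{v} #X = lift.{u} #Y := mk_congr_lift e.toEquiv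
    rw [hA, h2] at h1
    exact lift_inj.1 h1
  · intro y hy h1 h2 h3 h4
    have hyy : e '' (e.symm '' y) = y := by
      rw [← Set.image_comp]
      simp
    apply hc (e.symm '' y)
    · rintro _ ⟨z, hz, rfl⟩
      obtain ⟨a, ha, rfl⟩ := hy hz
      simpa using ha
    · exact h1.image _
    · exact h2.image e.symm.injective.injOn
    · obtain ⟨b, hb⟩ := h3
      refine ⟨e.symm b, ?_⟩
      rintro _ ⟨z, hz, rfl⟩
      exact e.symm.monotone (hb hz)
    · rw [hyy, h4]
      simp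

section

variable {k : Cardinal.{u}} {L : Type u} {U : Ultrafilter (Set L)}

theorem pick (hU : IsNormalMeasure k L U) {P : Set L → L → Prop}
    (h : ∀ᶠ x in (U : Filter (Set L)), ∃ z ∈ x, P x z) :
    ∃ i, ∀ᶠ x in (U : Filter (Set L)), P x i := by
  classical
  obtain ⟨x0, z0, -, -⟩ := h.exists
  have h1 : ∀ x : Set L, ∃ z, (∃ z ∈ x, P x z) → z ∈ x ∧ P x z := by
    intro x
    by_cases hx : ∃ z ∈ x, P x z
    · obtain ⟨z, hz⟩ := hx
      exact ⟨z, fun _ => hz⟩
    · exact ⟨z0, fun h => absurd h hx⟩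
  choose f hf using h1
  obtain ⟨i, hi⟩ := hU.normal f (by
    filter_upwards [h] with x hx using (hf x hx).1)
  refine ⟨i, ?_⟩
  filter_upwards [h, hi] with x hx hx2
  have := (hf x hx).2
  rwa [show f x = i from hx2] at this

theorem compl (hU : IsNormalMeasure k L U) {J : Type u} (hJ : #J < k) {P : J → Set L → Prop}
    (h : ∀ j, ∀ᶠ x in (U : Filter (Set L)), P j x) :
    ∀ᶠ x in (U : Filter (Set L)), ∀ j, P j x := by
  have := hU.complete J (fun j => {x | P j x}) hJ h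
  filter_upwards [this] with x hx
  intro j
  exact mem_iInter.1 hx j

theorem ctble (hk : ℵ₀ < k) (hU : IsNormalMeasure k L U) {P : ℕ → Set L → Prop}
    (h : ∀ n, ∀ᶠ x in (U : Filter (Set L)), P n x) :
    ∀ᶠ x in (U : Filter (Set L)), ∀ n, P n x := by
  have := compl hU (J := ULift.{u} ℕ) (by simpa using hk) (P := fun j x => P j.down x)
    (fun j => h j.down)
  filter_upwards [this] with x hx
  intro n
  exact hx ⟨n⟩

theorem fine (hU : IsNormalMeasure k L U) (i : L) : ∀ᶠ x in (U : Filter (Set L)), i ∈ x :=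
  hU.fine i

theorem closed (hU : IsNormalMeasure k L U) (g : L → L) :
    ∀ᶠ x in (U : Filter (Set L)), ∀ z ∈ x, g z ∈ x := by
  by_contra hc
  rw [← Ultrafilter.eventually_not] at hc
  have h1 : ∀ᶠ x in (U : Filter (Set L)), ∃ z ∈ x, g z ∉ x := by
    filter_upwards [hc] with x hx
    push Not at hx
    exact hx
  obtain ⟨i, hi⟩ := pick hU h1
  obtain ⟨x, hx1, hx2⟩ := (hi.and (fine hU (g i))).exists
  exact hx1 hx2

theorem initial [LinearOrder L] (hU : IsNormalMeasure k L U) (hL : ∀ b : L, #(Iio b) < #L) :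
    ∀ᶠ x in (U : Filter (Set L)), ∀ b ∈ x, ¬ ∃ h : L → L, ∀ c ∈ x, ∃ a ∈ x, a < b ∧ h a = c := by
  by_contra hc
  rw [← Ultrafilter.eventually_not] at hc
  have h1 : ∀ᶠ x in (U : Filter (Set L)), ∃ b ∈ x, ∃ h : L → L,
      ∀ c ∈ x, ∃ a ∈ x, a < b ∧ h a = c := by
    filter_upwards [hc] with x hx
    push Not at hx
    exact hx
  obtain ⟨b, hb⟩ := pick hU h1
  have h2 : ∀ x : Set L, ∃ h : L → L, (∃ h : L → L, ∀ c ∈ x, ∃ a ∈ x, a < b ∧ h a = c) →
      ∀ c ∈ x, ∃ a ∈ x, a < b ∧ h a = c := by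
    intro x
    by_cases hx : ∃ h : L → L, ∀ c ∈ x, ∃ a ∈ x, a < b ∧ h a = c
    · obtain ⟨h, hh⟩ := hx
      exact ⟨h, fun _ => hh⟩
    · exact ⟨id, fun h => absurd h hx⟩
  choose h hh using h2
  have h3 : ∀ c : L, ∃ a : L, ∀ᶠ x in (U : Filter (Set L)), a < b ∧ h x a = c := by
    intro c
    apply pick hU
    filter_upwards [hb, fine hU c] with x hx hx2
    exact hh x hx c hx2
  choose a ha using h3
  have hab : ∀ c, a c < b := fun c => by
    obtain ⟨x, hx⟩ := (ha c).exists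
    exact hx.1
  have hinj : Function.Injective (fun c => (⟨a c, hab c⟩ : Iio b)) := by
    intro c c' hcc
    have hcc' : a c = a c' := congrArg Subtype.val hcc
    obtain ⟨x, hx1, hx2⟩ := ((ha c).and (ha c')).exists
    rw [← hx1.2, ← hx2.2, hcc']
  exact absurd (mk_le_of_injective hinj) (not_le.2 (hL b))

theorem big (hU : IsNormalMeasure k L U) {G : Type u} (hG : #G < #L) (hGk : #G < k) :
    ∀ᶠ x in (U : Filter (Set L)), ¬ ∃ h : G → L, ∀ c ∈ x, ∃ g, h g = c := by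
  by_contra hc
  rw [← Ultrafilter.eventually_not] at hc
  have h1 : ∀ᶠ x in (U : Filter (Set L)), ∃ h : G → L, ∀ c ∈ x, ∃ g, h g = c := by
    filter_upwards [hc] with x hx
    exact not_not.1 hx
  have hne : Nonempty L := by
    rw [← mk_ne_zero_iff]
    intro h0
    rw [h0] at hG
    exact absurd hG not_lt_zero
  have h2 : ∀ x : Set L, ∃ h : G → L, (∃ h : G → L, ∀ c ∈ x, ∃ g, h g = c) →
      ∀ c ∈ x, ∃ g, h g = c := by
    intro x
    by_cases hx : ∃ h : G → L, ∀ c ∈ x, ∃ g, h g = c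
    · obtain ⟨h, hh⟩ := hx
      exact ⟨h, fun _ => hh⟩
    · exact ⟨fun _ => Classical.arbitrary L, fun h => absurd h hx⟩
  choose h hh using h2
  have h3 : ∀ c : L, ∃ g : G, ∀ᶠ x in (U : Filter (Set L)), h x g = c := by
    intro c
    by_contra hcon
    push Not at hcon
    have h4 : ∀ g : G, ∀ᶠ x in (U : Filter (Set L)), h x g ≠ c := by
      intro g
      exact hcon g
    have h5 := compl hU hGk h4
    obtain ⟨x, hx1, hx2, hx3⟩ := (h5.and (h1.and (fine hU c))).exists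
    obtain ⟨g, hg⟩ := hh x hx2 c hx3
    exact hx1 g hg
  choose g hg using h3
  have hinj : Function.Injective g := by
    intro c c' hcc
    obtain ⟨x, hx1, hx2⟩ := ((hg c).and (hg c')).exists
    rw [← hx1, ← hx2, hcc]
  exact absurd (mk_le_of_injective hinj) (not_le.2 hG)

theorem unfold_not [LinearOrder L] {x : Set L} (h : ¬ BdArrow (x : Type u)) :
    ∃ F : Set L → L, (∀ a, F a ∈ x) ∧ ∀ A : Set L, A ⊆ x → #A = #x → ∀ c ∈ x,
      ∃ s : ℕ → L, (∀ n, s n ∈ A) ∧ (range s).Infinite ∧ (∃ b ∈ x, ∀ n, s n ≤ b) ∧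
        F (range s) = c := by
  unfold BdArrow at h
  push Not at h
  obtain ⟨f, hf⟩ := h
  refine ⟨fun a => (f {z : x | z.1 ∈ a}).1, fun a => (f _).2, ?_⟩
  intro A hA hcard c hc
  have h1 : #({z : x | z.1 ∈ A} : Set x) = #x := by
    rw [← hcard]
    apply mk_congr
    refine ⟨fun z => ⟨z.1.1, z.2⟩, fun z => ⟨⟨z.1, hA z.2⟩, z.2⟩, ?_, ?_⟩
    · intro z; rfl
    · intro z; rfl
  obtain ⟨y, hy1, hy2, hy3, hy4, hy5⟩ := hf _ h1 ⟨c, hc⟩
  obtain ⟨s, hs⟩ := hy2.exists_eq_range hy3.nonempty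
  refine ⟨fun n => (s n).1, ?_, ?_, ?_, ?_⟩
  · intro n
    have : s n ∈ y := by rw [hs]; exact mem_range_self n
    exact hy1 this
  · have : range (fun n => (s n).1) = Subtype.val '' y := by
      rw [hs, ← range_comp]; rfl
    rw [this]
    exact hy3.image Subtype.val_injective.injOn
  · obtain ⟨b, hb⟩ := hy4
    refine ⟨b.1, b.2, fun n => ?_⟩
    have : s n ∈ y := by rw [hs]; exact mem_range_self n
    exact hb this
  · have : {z : x | z.1 ∈ range (fun n => (s n).1)} = y := by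
      rw [hs]
      ext z
      constructor
      · rintro ⟨n, hn⟩
        exact ⟨n, Subtype.ext hn⟩
      · rintro ⟨n, hn⟩
        exact ⟨n, congrArg Subtype.val hn⟩
    change (f {z : x | z.1 ∈ range (fun n => (s n).1)}).1 = c
    rw [this, hy5]

theorem bd [LinearOrder L] (hk : ℵ₀ < k) (hU : IsNormalMeasure k L U) (hA : BdArrow L) :
    ∀ᶠ x : Set L in (U : Filter (Set L)), BdArrow (x : Type u) := by
  by_contra hc
  rw [← Ultrafilter.eventually_not] at hc
  -- the functions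
  have h0 : ∀ x : Set L, ∃ F : Set L → L, ¬ BdArrow (x : Type u) → (∀ a, F a ∈ x) ∧
      ∀ A : Set L, A ⊆ x → #A = #x → ∀ c ∈ x,
      ∃ s : ℕ → L, (∀ n, s n ∈ A) ∧ (range s).Infinite ∧ (∃ b ∈ x, ∀ n, s n ≤ b) ∧
        F (range s) = c := by
    intro x
    by_cases hx : ¬ BdArrow (x : Type u)
    · obtain ⟨F, hF⟩ := unfold_not hx
      exact ⟨F, fun _ => hF⟩
    · obtain ⟨x1, hx1⟩ := hc.exists
      obtain ⟨F, -, -⟩ := unfold_not hx1
      exact ⟨F, fun h => absurd h hx⟩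
  choose F hF using h0
  have h1 : ∀ a : Set L, ∃ i, ∀ᶠ x in (U : Filter (Set L)), F x a = i := by
    intro a
    apply hU.normal
    filter_upwards [hc] with x hx using (hF x hx).1 a
  choose G hG using h1
  obtain ⟨A, hcard, c, hAc⟩ := hA G
  obtain ⟨e⟩ := Cardinal.eq.1 hcard
  have h2 := closed hU (fun z => (e.symm z).1)
  have h3 : ∀ᶠ x in (U : Filter (Set L)), ∃ s : ℕ → L, (∀ n, s n ∈ A ∩ x) ∧ (range s).Infinite ∧
      (∃ b ∈ x, ∀ n, s n ≤ b) ∧ F x (range s) = c := by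
    filter_upwards [hc, h2, fine hU c] with x hx hx2 hx3
    refine (hF x hx).2 (A ∩ x) inter_subset_right ?_ c hx3
    apply le_antisymm (mk_le_mk_of_subset inter_subset_right)
    refine mk_le_of_injective (f := fun z : x => (⟨(e.symm z.1).1, (e.symm z.1).2, hx2 _ z.2⟩ :
      (A ∩ x : Set L))) ?_
    intro z z' hz
    have : (e.symm z.1).1 = (e.symm z'.1).1 :=
      congrArg (fun w : (A ∩ x : Set L) => w.1) hz
    exact Subtype.ext (e.symm.injective (Subtype.ext this))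
  have h4 : ∀ x : Set L, ∃ s : ℕ → L, (∃ s : ℕ → L, (∀ n, s n ∈ A ∩ x) ∧ (range s).Infinite ∧
      (∃ b ∈ x, ∀ n, s n ≤ b) ∧ F x (range s) = c) → (∀ n, s n ∈ A ∩ x) ∧ (range s).Infinite ∧
      (∃ b ∈ x, ∀ n, s n ≤ b) ∧ F x (range s) = c := by
    intro x
    by_cases hx : ∃ s : ℕ → L, (∀ n, s n ∈ A ∩ x) ∧ (range s).Infinite ∧
      (∃ b ∈ x, ∀ n, s n ≤ b) ∧ F x (range s) = c
    · obtain ⟨s, hs⟩ := hx
      exact ⟨s, fun _ => hs⟩
    · exact ⟨fun _ => c, fun h => absurd h hx⟩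
  choose s hs using h4
  have h5 : ∀ n, ∃ i, ∀ᶠ x in (U : Filter (Set L)), s x n = i := by
    intro n
    apply hU.normal (fun x => s x n)
    filter_upwards [h3] with x hx using ((hs x hx).1 n).2
  choose t ht using h5
  have h6 := ctble hk hU ht
  obtain ⟨x, hx1, hx2, hx3⟩ := (h6.and (h3.and (hG (range t)))).exists
  have hst : s x = t := funext hx1
  have h7 := hs x hx2
  rw [hst] at h7
  obtain ⟨h8, h9, ⟨b, -, hb⟩, h10⟩ := h7
  apply hAc (range t)
  · rintro _ ⟨n, rfl⟩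
    exact (h8 n).1
  · exact countable_range t
  · exact h9
  · exact ⟨b, by rintro _ ⟨n, rfl⟩; exact hb n⟩
  · rw [← hx3, h10]

end

/-- Almost every `x` has an initial order type. -/
theorem ordEq {k l : Cardinal.{u}} (U : Ultrafilter (Set l.ord.ToType))
    (hU : IsNormalMeasure k l.ord.ToType U) :
    ∀ᶠ x : Set l.ord.ToType in (U : Filter (Set l.ord.ToType)),
      (#(x : Type u)).ord = typeLT (x : Type u) := by
  have hLcard : #l.ord.ToType = l := by simp
  have hinit : ∀ b : l.ord.ToType, #(Iio b) < #l.ord.ToType := by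
    intro b
    rw [hLcard]
    simpa using mk_Iio_lt b
  filter_upwards [initial hU hinit] with x h2
  apply le_antisymm (ord_le_type _)
  by_contra hcon
  push Not at hcon
  obtain ⟨b, hb⟩ := typein_surj (α := x) (· < ·) hcon
  have h7 : #{y : x // y < b} = #x := by
    have := congrArg Ordinal.card hb
    rwa [card_typein, card_ord] at this
  obtain ⟨e⟩ := Cardinal.eq.1 h7
  apply h2 b.1 b.2
  classical
  refine ⟨fun a => if ha : ∃ h : a ∈ x, (⟨a, h⟩ : x) < b then
    (e ⟨⟨a, ha.1⟩, ha.2⟩).1 else a, fun c hc => ?_⟩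
  refine ⟨(e.symm ⟨c, hc⟩).1.1, (e.symm ⟨c, hc⟩).1.2, (e.symm ⟨c, hc⟩).2, ?_⟩
  have hex : ∃ h : (e.symm ⟨c, hc⟩).1.1 ∈ x, (⟨(e.symm ⟨c, hc⟩).1.1, h⟩ : x) < b :=
    ⟨(e.symm ⟨c, hc⟩).1.2, (e.symm ⟨c, hc⟩).2⟩
  refine (dif_pos hex).trans ?_
  have : (⟨⟨(e.symm ⟨c, hc⟩).1.1, hex.1⟩, hex.2⟩ : {y : x // y < b}) = e.symm ⟨c, hc⟩ := rfl
  rw [this, Equiv.apply_symm_apply]

/-- Almost every `x` is larger than `g`. -/
theorem sizes {k l g : Cardinal.{u}} (hk : ℵ₀ < k) (hl : k ≤ l)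
    (U : Ultrafilter (Set l.ord.ToType)) (hU : IsNormalMeasure k l.ord.ToType U) (hg : g < k) :
    ∀ᶠ x : Set l.ord.ToType in (U : Filter (Set l.ord.ToType)),
      max g ℵ₀ < #(x : Type u) ∧ #(x : Type u) < k := by
  have hLcard : #l.ord.ToType = l := by simp
  have hG : max g ℵ₀ < k := max_lt hg hk
  have e3 := big hU (G := (max g ℵ₀).out) (by rw [mk_out, hLcard]; exact hG.trans_le hl)
    (by rw [mk_out]; exact hG)
  have hne : Nonempty l.ord.ToType := by
    rw [← mk_ne_zero_iff, hLcard]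
    intro h0
    rw [h0] at hl
    exact absurd (hk.trans_le hl) not_lt_zero
  filter_upwards [e3, hU.small, fine hU (Classical.arbitrary l.ord.ToType)] with x h3 h5 h6
  refine ⟨?_, h5⟩
  by_contra hcon
  push Not at hcon
  apply h3
  have hxne : Nonempty x := ⟨⟨_, h6⟩⟩
  have h6 : #x ≤ #(max g ℵ₀).out := by rwa [mk_out]
  obtain ⟨⟨f, hf⟩⟩ := h6
  refine ⟨fun a => (Function.invFun f a).1, fun c hc => ⟨f ⟨c, hc⟩, ?_⟩⟩
  change (Function.invFun f (f ⟨c, hc⟩)).1 = c
  rw [Function.leftInverse_invFun hf]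

/-- Measure one reflection. -/
theorem measure_one {k l g : Cardinal.{u}} (hk : ℵ₀ < k) (hl : k ≤ l) (hM : IsMagidor l)
    (U : Ultrafilter (Set l.ord.ToType)) (hU : IsNormalMeasure k l.ord.ToType U) (hg : g < k) :
    ∀ᶠ x : Set l.ord.ToType in (U : Filter (Set l.ord.ToType)),
      g < #(x : Type u) ∧ #(x : Type u) < k ∧ IsMagidor #(x : Type u) := by
  obtain ⟨hl0, hcof, hbd⟩ := hM
  have hbdL : BdArrow l.ord.ToType := hbd.congr ToType.mk
  have e1 := bd hk hU hbdL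
  -- cofinal sequence
  have hcofL : Order.cof l.ord.ToType = ℵ₀ := by rw [Ordinal.cof_toType, hcof]
  obtain ⟨S, hS, hS2⟩ := Order.exists_cof_eq l.ord.ToType
  rw [hcofL] at hS2
  have hSc : S.Countable := by
    rw [← le_aleph0_iff_set_countable, hS2]
  have hSn : S.Nonempty := by
    rw [← nonempty_coe_sort, ← mk_ne_zero_iff, hS2]
    exact aleph0_ne_zero
  obtain ⟨s, hs⟩ := hSc.exists_eq_range hSn
  have e4 := ctble hk hU (fun n => fine hU (s n))
  filter_upwards [e1, ordEq U hU, sizes hk hl U hU hg, e4] with x h1 hord h3 h4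
  obtain ⟨hgx, h5⟩ := h3
  have hx0 : ℵ₀ < #x := (le_max_right _ _).trans_lt hgx
  refine ⟨(le_max_left _ _).trans_lt hgx, h5, hx0, ?_, ?_⟩
  · apply le_antisymm
    · rw [hord, Ordinal.cof_type]
      have hc : IsCofinal (range (fun n => (⟨s n, h4 n⟩ : x))) := by
        intro z
        obtain ⟨y, hy, hzy⟩ := hS z.1
        rw [hs] at hy
        obtain ⟨n, rfl⟩ := hy
        exact ⟨_, mem_range_self n, hzy⟩
      refine (Order.cof_le hc).trans ?_
      rw [le_aleph0_iff_set_countable]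
      exact countable_range _
    · rw [Ordinal.aleph0_le_cof_iff, Ordinal.one_lt_cof_iff]
      exact isSuccLimit_ord hx0.le
  · have h8 : typeLT x = typeLT (#x).ord.ToType := by rw [type_toType, hord]
    obtain ⟨e⟩ := type_eq.1 h8
    exact (h1.congr (OrderIso.ofRelIsoLT e)).congr ToType.mk.symm

end Pool.Agent.H73.MG
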